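import Pool.Agent.R427.CC6

/-!
# Elliptic curves over function fields whose Frobenius traces are congruent to those of a constant
# representation

Let `E` be an elliptic curve over the function field `K` of a curve over the field `k` with `q` elements,
of characteristic at least `5`, and `l` a prime different from the characteristic such that, at the
places `v` of good reduction, `a_v` is congruent modulo `l` to `α ^ deg v + β ^ deg v` for fixed `α`, `β`
with `α β = q`. Examples are the curves with a point of order three over `K` (`α = 1`, `β = q`), their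
twists by the quadratic extension of the constants (`α = -1`, `β = -q`), and the curves whose group of
`l`-torsion points is, up to semisimplification, that of an elliptic curve over `k`.

We determine the multiplicity of the central zero of `L(T, E)` modulo `l`, and show that `L(T, E)` has
no central zero, over `K` and over all Galois extensions of `K` of degree a power of `l` which are
ramified only at places `v` with `α ^ deg v` and `β ^ deg v` different from `1`, if `α`, `β` are
different from `1`, the same holds for `α ^ deg v` and `β ^ deg v` at the places of bad reduction, and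
the numerator of the zeta function of `K` does not vanish at `1 / α` and `1 / β` modulo `l`.
-/

set_option autoImplicit false
set_option linter.all false
set_option maxHeartbeats 4000000

open Polynomial FF Module Pool.Agent.W343.BSD Pool.Agent.W313.Gr

namespace Pool.Agent.Results.MP_48b749_nt.CongruentToConstant

section defs

variable {F : Type} [Field F]

/-- At all places `v` of good reduction, `a_v` is `α ^ deg v + β ^ deg v` in the field `F`. -/
def TracesConstant (k : Type) {K : Type} [Field k] [Field K] [Algebra k K] (α β : F) (a b : K) :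
    Prop :=
  ∀ v : FF.Place k K, v.ord (minDisc v a b) = 0 →
    ((S.trace v a b : ℤ) : F) = α ^ S.deg v + β ^ S.deg v

/-- The multiplicity of the zero `x` of the reduction of `P`. -/
noncomputable def mult (P : ℤ[X]) (x : F) : ℕ := (P.map (Int.castRingHom F)).rootMultiplicity x

open Classical in
/-- `1` if `x = 1`, and `0` otherwise. -/
noncomputable def isOne (x : F) : ℤ := if x = 1 then 1 else 0

open Classical in
/-- The weight of a place `v` of bad reduction, for the curve `y ^ 2 = x ^ 3 + a x + b`. -/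
noncomputable def weight (l : ℕ) {k K : Type} [Field k] [Field K] [Algebra k K] (v : FF.Place k K)
    (α β : F) (a b : K) : ℤ :=
  if v.ord (minDisc v a b) = 0 then 0 else
    (isOne (α ^ S.deg v) + isOne (β ^ S.deg v) -
      (if ((S.trace v a b : ℤ) : F) = (Nat.card (S.Res v) : F) then 1 else 0)) *
        (l : ℤ) ^ padicValNat l (S.deg v)

/-- The multiplicity of the central zero modulo `l`, where `P` is the numerator of the zeta
function. -/
noncomputable def central (l : ℕ) (k : Type) {K : Type} [Field k] [Field K] [Algebra k K] (α β : F)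
    (P : ℤ[X]) (a b : K) : ℤ :=
  mult P α⁻¹ + mult P β⁻¹ + ∑ᶠ v : FF.Place k K, weight l v α β a b - 2 * (isOne α + isOne β)

/-- The conditions: `α`, `β` and, at the places `v` of bad reduction, `α ^ deg v`, `β ^ deg v` are
different from `1`, and `P` does not vanish at `1 / α` and `1 / β`. -/
structure Conditions (k : Type) {K : Type} [Field k] [Field K] [Algebra k K] (α β : F) (P : ℤ[X])
    (a b : K) : Prop where
  one : α ≠ 1 ∧ β ≠ 1
  zeta : (P.map (Int.castRingHom F)).eval α⁻¹ ≠ 0 ∧ (P.map (Int.castRingHom F)).eval β⁻¹ ≠ 0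
  bad : ∀ v : FF.Place k K, v.ord (minDisc v a b) ≠ 0 → α ^ S.deg v ≠ 1 ∧ β ^ S.deg v ≠ 1

/-- The `L`-function of `y ^ 2 = x ^ 3 + a x + b` has no zero at `T = 1 / |k|`; if the rank is at most
the order of vanishing, then it is zero. -/
def NoCentralZero (k : Type) {K : Type} [Field k] [Field K] [Algebra k K] (a b : K) : Prop :=
  (∀ m : ℕ, S.VanishesTo k a b m → m = 0) ∧
  ∀ r : ℕ, HasOrder k a b r → r = 0 ∧ (rank a b ≤ r → rank a b = 0)

/-- The place `w` lies over the place `v` with ramification index `e`. -/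
def LiesOver {k K k' L : Type} [Field k] [Field K] [Algebra k K] [Field k'] [Field L] [Algebra k' L]
    [Algebra K L] (w : FF.Place k' L) (v : FF.Place k K) (e : ℕ) : Prop :=
  0 < e ∧ ∀ f : K, w.ord (algebraMap K L f) = e * v.ord f

/-- If `L(T, E/K)` is a polynomial, then `L(T, E/L)` has no central zero, for all finite Galois
extensions `L` of `K` of degree a power of `l`, with any field of constants, which are unramified at the
places `v` with `α ^ deg v = 1` or `β ^ deg v = 1`. -/
def NoZeroInExtensions (l : ℕ) (k : Type) {K : Type} [Field k] [Field K] [Algebra k K] (α β : F)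
    (a b : K) : Prop :=
  ∀ Q : ℤ[X], S.Lfun k a b = (Q : PowerSeries ℤ) → ∀ (k' L : Type) [Field k'] [Finite k'] [Field L]
    [Algebra k' L] [Algebra k k'] [Algebra k L] [Algebra K L] [IsScalarTower k K L]
    [IsScalarTower k k' L] (s : ℕ), IsCurveField k' L → IsGalois K L → finrank K L = l ^ s →
    (∀ (v : FF.Place k K) (w : FF.Place k' L) (e : ℕ), LiesOver w v e → e ≠ 1 →
      α ^ S.deg v ≠ 1 ∧ β ^ S.deg v ≠ 1) →
    NoCentralZero k' (algebraMap K L a) (algebraMap K L b)

/-- The number `central` for the numerator `P` of the zeta function is the multiplicity of the zero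
`1 / q` of the reduction of `L(T, E)`, if this is a polynomial; it is at least the order of vanishing;
under the conditions there is no central zero, over `K` and over the extensions above. -/
def CentralMultiplicity (l : ℕ) (k : Type) {K : Type} [Field k] [Field K] [Algebra k K] (α β : F)
    (a b : K) : Prop :=
  ∃ P : ℤ[X], IsNumerator k K P ∧
    (∀ Q : ℤ[X], S.Lfun k a b = (Q : PowerSeries ℤ) →
      (mult Q (Nat.card k : F)⁻¹ : ℤ) = central l k α β P a b) ∧
    (∀ m : ℕ, S.VanishesTo k a b m → (m : ℤ) ≤ central l k α β P a b) ∧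
    (Conditions k α β P a b → NoCentralZero k a b ∧ NoZeroInExtensions l k α β a b)

end defs

/-- The first coefficient of `u y ^ 2 = x ^ 3 + (3 x + 4 h) ^ 2` in short form. -/
def coeffA {k K : Type} [Field k] [Field K] [Algebra k K] (u : k) (h : K) : K :=
  algebraMap k K u ^ 2 * (24 * h - 27)

/-- The second coefficient of `u y ^ 2 = x ^ 3 + (3 x + 4 h) ^ 2` in short form. -/
def coeffB {k K : Type} [Field k] [Field K] [Algebra k K] (u : k) (h : K) : K :=
  algebraMap k K u ^ 3 * (16 * h ^ 2 - 72 * h + 54)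

/-- The properties in part (4) of a curve `y ^ 2 = x ^ 3 + a x + b` over `k(t)`. -/
def IsExample {k : Type} [Field k] (a b : RatFunc k) : Prop :=
  4 * a ^ 3 + 27 * b ^ 2 ≠ 0 ∧
    (∀ c : k, 6912 * a ^ 3 / (4 * a ^ 3 + 27 * b ^ 2) ≠ algebraMap k (RatFunc k) c) ∧
    TracesConstant k (-1 : ZMod 3) (-1 : ZMod 3) a b ∧
    Conditions k (-1 : ZMod 3) (-1 : ZMod 3) 1 a b ∧
    NoCentralZero k a b ∧ NoZeroInExtensions 3 k (-1 : ZMod 3) (-1 : ZMod 3) a b

section proof

open Pool.Agent.R427.CC

theorem neg_one_ne : (-1 : ZMod 3) ≠ 1 := by decide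

theorem central_eq {l : ℕ} {k K F : Type} [Field k] [Field K] [Algebra k K] [Field F] (α β : F)
    (P : ℤ[X]) (a b : K) : central l k α β P a b =
      multAt P α⁻¹ + multAt P β⁻¹ + cweightSum l k α β a b - 2 * (isOne α + isOne β) := rfl

theorem noCentral_of {k K : Type} [Field k] [Finite k] [Field K] [Algebra k K] [FF.IsFF k K]
    {a b : K} (h : ∀ m : ℕ, S.VanishesTo k a b m → m = 0) : NoCentralZero k a b := by
  refine ⟨h, ?_⟩
  rintro r ⟨P, hP, hr⟩
  have h0 : r = 0 := by
    by_contra hne
    have hroot : (P.map (Int.castRingHom ℚ)).IsRoot ((Nat.card k : ℚ)⁻¹) := by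
      by_contra h2
      rw [rootMultiplicity_eq_zero h2] at hr
      exact hne hr.symm
    obtain ⟨G, hG⟩ := dvd_of_root (q := Nat.card k) Nat.card_pos.ne' hroot
    exact one_ne_zero (h 1 ⟨G, by rw [hP, hG, pow_one]⟩)
  refine ⟨h0, fun hle => ?_⟩
  rw [h0] at hle
  exact nonpos_iff_eq_zero.1 (by exact_mod_cast hle)

theorem main {k K : Type} [Field k] [Finite k] [Field K] [Algebra k K] {a b : K} {l : ℕ} {F : Type}
    [Field F] [CharP F l] {α β : F} (h6 : (6 : k) ≠ 0) (hK : IsCurveField k K)
    (hΔ : 4 * a ^ 3 + 27 * b ^ 2 ≠ 0) (hl : l.Prime) (hlk : (l : k) ≠ 0)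
    (hαβ : α * β = (Nat.card k : F)) (hc : TracesConstant k α β a b) {P : ℤ[X]}
    (hP : S.IsZetaNum k K P) :
    (∀ Q : ℤ[X], S.Lfun k a b = (Q : PowerSeries ℤ) →
        (mult Q (Nat.card k : F)⁻¹ : ℤ) = central l k α β P a b) ∧
      (∀ m : ℕ, S.VanishesTo k a b m → (m : ℤ) ≤ central l k α β P a b) ∧
      (Conditions k α β P a b → NoCentralZero k a b ∧ NoZeroInExtensions l k α β a b) := by
  have hFF : FF.IsFF k K := ⟨hK.essFiniteType, hK.trdeg_eq_one⟩
  have hc1 := constDeg_eq_one hK.algClosed
  have := Fact.mk hl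
  have hP' := (S.isZetaNum_iff P).1 hP
  refine ⟨fun Q hQ => ?_, fun m hm => ?_, fun hA => ⟨?_, ?_⟩⟩
  · have h := mult_eq hlk hαβ hΔ hc hP' hc1 hQ
    rw [central_eq]
    exact eq_sub_of_add_eq h
  · have h := bound hlk hαβ hΔ hc hP' hc1 hm
    rw [central_eq]
    exact le_sub_iff_add_le.2 h
  · exact noCentral_of fun m hm =>
      nonvanishing hlk hαβ hΔ hc hP' hc1 ⟨hA.one, hA.zeta, hA.bad⟩ hm
  · intro Q hQ k' L _ _ _ _ _ _ _ _ _ s hL hG hs hram
    have hFFL : FF.IsFF k' L := ⟨hL.essFiniteType, hL.trdeg_eq_one⟩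
    have hfd : FiniteDimensional K L := finite_of_finrank_pos (by
      rw [hs]; exact pow_pos hl.pos s)
    refine noCentral_of fun m hm => ?_
    exact tower h6 hK.algClosed hlk hαβ hΔ hc hP' hc1 ⟨hA.one, hA.zeta, hA.bad⟩ hQ hs
      (fun v w e hov he => hram v w e ⟨hov.1, hov.2⟩ he) hm

theorem three_points {k K : Type} [Field k] [Finite k] [Field K] [Algebra k K] [FF.IsFF k K]
    (h6 : (6 : k) ≠ 0) {a b α β : K} (hΔ : 4 * a ^ 3 + 27 * b ^ 2 ≠ 0)
    (hT : Pool.Agent.TH639.B3.IsT3 a b α β) :
    TracesConstant k (1 : ZMod 3) (Nat.card k : ZMod 3) a b := by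
  have : Fact (Nat.Prime 3) := ⟨Nat.prime_three⟩
  exact constTraces_of_points (l := 3) (Pool.Agent.TH639.B3.pointsDvd_three h6 hT hΔ)

end proof

open Classical in
/-- Let `k` be a finite field with `q` elements, of characteristic at least `5`, and `K` the function
field of a curve over `k`; let `E : y ^ 2 = x ^ 3 + a x + b` be an elliptic curve over `K`, `l` a prime
other than the characteristic, `F` a field of characteristic `l`, and let `α`, `β` in `F`, `α β = q`, be
such that the traces of `E` are `α ^ deg v + β ^ deg v` in `F`.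

(1) The multiplicity of the zero `1 / q` of the reduction of `L(T, E)` is the number `central`, which is
at least the order of vanishing.

(2) Under `Conditions`, `L(T, E/L)` has no zero at the central point for `L = K` and for all finite
Galois extensions `L` of `K` of degree a power of `l` which are ramified only at places `v` with
`α ^ deg v ≠ 1`, `β ^ deg v ≠ 1`. (For `L ≠ K` we assume that `L(T, E/K)` is a polynomial; this holds if
`j_E` is not constant, Grothendieck.)

(3) For the twist of `E` by the quadratic extension of the constants one can take `-α`, `-β`. One can take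
`α = 1`, `β = q` if `l` divides the numbers of points of all good reductions, in particular for `l = 3` if
`E` has a `K`-rational point of order three.

(4) Let `q` be `1` modulo `3`, `u` in `k` not a square, `m` odd and `n` a divisor of `q ^ m - 1`. The
curve `u y ^ 2 = x ^ 3 + (3 x + 4 t ^ n) ^ 2` over `k(t)` has a nonconstant `j`-invariant and satisfies
all the hypotheses in (2), with `l = 3` and `α = β = -1`; so the extensions in (2) are those of degree a
power of three ramified only at places of odd degree. The number of places of bad reduction of these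
curves is unbounded, for each `k`. -/
theorem result :
    (∀ (k K : Type) [Field k] [Finite k] [Field K] [Algebra k K] (a b : K) (l : ℕ) (F : Type)
      [Field F] [CharP F l] (α β : F), (6 : k) ≠ 0 → IsCurveField k K →
      4 * a ^ 3 + 27 * b ^ 2 ≠ 0 → l.Prime → (l : k) ≠ 0 → α * β = (Nat.card k : F) →
      TracesConstant k α β a b → CentralMultiplicity l k α β a b) ∧
    (∀ (k K : Type) [Field k] [Finite k] [Field K] [Algebra k K] (a b : K), (6 : k) ≠ 0 →
      IsCurveField k K → 4 * a ^ 3 + 27 * b ^ 2 ≠ 0 →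
      (∀ (F : Type) [Field F] (α β : F) (u : k), TracesConstant k α β a b → ¬ IsSquare u →
        TracesConstant k (-α) (-β) (algebraMap k K u ^ 2 * a) (algebraMap k K u ^ 3 * b)) ∧
      (∀ (l : ℕ) (F : Type) [Field F] [CharP F l], PointsDvd l k a b →
        TracesConstant k (1 : F) (Nat.card k : F) a b) ∧
      ((∃ R : (curve a b).toAffine.Point, addOrderOf R = 3) →
        TracesConstant k (1 : ZMod 3) (Nat.card k : ZMod 3) a b)) ∧
    ∀ (k : Type) [Field k] [Finite k], (6 : k) ≠ 0 → Nat.card k % 3 = 1 →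
      IsCurveField k (RatFunc k) ∧ IsNumerator k (RatFunc k) 1 ∧ ∀ u : k, ¬ IsSquare u →
        (∀ n m : ℕ, Odd m → n ≠ 0 → n ∣ Nat.card k ^ m - 1 →
          IsExample (coeffA u ((RatFunc.X : RatFunc k) ^ n))
            (coeffB u ((RatFunc.X : RatFunc k) ^ n))) ∧
        ∀ N : ℕ, ∃ m : ℕ, Odd m ∧ ∃ s : Finset (FF.Place k (RatFunc k)), N ≤ s.card ∧ ∀ v ∈ s,
          v.ord (minDisc v (coeffA u (RatFunc.X ^ (Nat.card k ^ m - 1)))
            (coeffB u (RatFunc.X ^ (Nat.card k ^ m - 1)))) ≠ 0 := by
  refine ⟨?_, ?_, ?_⟩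
  · intro k K _ _ _ _ a b l F _ _ α β h6 hK hΔ hl hlk hαβ hc
    have hFF : FF.IsFF k K := ⟨hK.essFiniteType, hK.trdeg_eq_one⟩
    obtain ⟨P, hP, hP1⟩ := exists_num_rel k K
    have hP' := (S.isZetaNum_iff P).2 hP
    exact ⟨P, ⟨hP', hP1.trans (by rw [S.classNumber_eq])⟩, main h6 hK hΔ hl hlk hαβ hc hP'⟩
  · intro k K _ _ _ _ a b h6 hK hΔ
    have hFF : FF.IsFF k K := ⟨hK.essFiniteType, hK.trdeg_eq_one⟩
    have h2 : (2 : K) ≠ 0 := by
      have : (2 : K) = algebraMap k K 2 := by rw [map_ofNat]
      rw [this]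
      apply (_root_.map_ne_zero _).2
      intro h
      apply h6
      have : (6 : k) = 2 * 3 := by norm_num
      rw [this, h, zero_mul]
    refine ⟨fun F _ α β u hc hu => Pool.Agent.R427.CC.constTraces_twist h6 hΔ hc hu,
      fun l F _ _ h => Pool.Agent.R427.CC.constTraces_of_points h, ?_⟩
    rintro ⟨R, hR⟩
    obtain ⟨α, β, -, hT⟩ := Pool.Agent.TH639.B3.isT3_of_order h2 R (by convert hR)
    exact three_points h6 hΔ hT
  · intro k _ _ h6 hq3
    have : Fact (Nat.Prime 3) := ⟨Nat.prime_three⟩
    have hK := Pool.Agent.TH958.T4.isCurveField_rat (k := k)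
    have hZ : S.IsZetaNum k (RatFunc k) 1 := Pool.Agent.W309.RF.isZetaNum_rat
    have hlk : ((3 : ℕ) : k) ≠ 0 := by
      intro h
      apply h6
      have : (6 : k) = 2 * ((3 : ℕ) : k) := by norm_num
      rw [this, h, mul_zero]
    have h3 : (3 : k) ≠ 0 := by exact_mod_cast hlk
    refine ⟨hK, ⟨hZ, by rw [eval_one, Pool.Agent.W309.RF.classNumber_rat, Nat.cast_one]⟩,
      fun u hu => ⟨?_, ?_⟩⟩
    · intro n m hm hn hnm
      have hX0 : (RatFunc.X : RatFunc k) ≠ 0 := RatFunc.X_ne_zero
      have hne1 : (X ^ n - 1 : k[X]) ≠ 0 := X_pow_sub_C_ne_zero (Nat.pos_of_ne_zero hn) 1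
      have e : Pool.Agent.W309.RF.A (X ^ n - 1 : k[X]) = (RatFunc.X : RatFunc k) ^ n - 1 := by
        rw [Pool.Agent.W309.RF.A_aeval]
        simp
      have hh1 : (RatFunc.X : RatFunc k) ^ n - 1 ≠ 0 := by
        rw [← e]
        exact Pool.Agent.W309.RF.A_ne hne1
      have h2k : (2 : k) ≠ 0 := by
        intro h
        apply h6
        have : (6 : k) = 2 * 3 := by norm_num
        rw [this, h, zero_mul]
      have h6912 : (6912 : RatFunc k) ≠ 0 := by
        have h1 : (6912 : RatFunc k) = algebraMap k (RatFunc k) 6912 := by rw [map_ofNat]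
        rw [h1]
        apply (_root_.map_ne_zero _).2
        have : (6912 : k) = 2 ^ 8 * 3 ^ 3 := by norm_num
        rw [this]
        exact mul_ne_zero (pow_ne_zero _ h2k) (pow_ne_zero _ h3)
      set h : RatFunc k := RatFunc.X ^ n with hhd
      have hh0 : h ≠ 0 := pow_ne_zero n hX0
      have hΔ0 : 4 * Pool.Agent.R427.CC.cA h ^ 3 + 27 * Pool.Agent.R427.CC.cB h ^ 2 ≠ 0 := by
        rw [Pool.Agent.R427.CC.fam_disc]
        refine neg_ne_zero.2 (mul_ne_zero (mul_ne_zero h6912 (pow_ne_zero 3 hh0)) ?_)
        intro h4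
        apply hh1
        linear_combination -h4
      have eA : coeffA u h = algebraMap k (RatFunc k) u ^ 2 * Pool.Agent.R427.CC.cA h := rfl
      have eB : coeffB u h = algebraMap k (RatFunc k) u ^ 3 * Pool.Agent.R427.CC.cB h := rfl
      have hΔ := Pool.Agent.R427.CC.twist_ne hΔ0 hu
      rw [← eA, ← eB] at hΔ
      have hu0 : algebraMap k (RatFunc k) u ≠ 0 := by
        apply (_root_.map_ne_zero _).2
        rintro rfl
        exact hu (IsSquare.zero)
      have hT0 := three_points (k := k) h6 hΔ0 (Pool.Agent.R427.CC.isT3_fam h)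
      have hqz : (Nat.card k : ZMod 3) = 1 := by
        have h5 : ((Nat.card k : ℕ) : ZMod 3) = ((Nat.card k % 3 : ℕ) : ZMod 3) := by
          rw [ZMod.natCast_mod]
        rw [h5, hq3, Nat.cast_one]
      rw [hqz] at hT0
      have hT := Pool.Agent.R427.CC.constTraces_twist h6 hΔ0 hT0 hu
      rw [← eA, ← eB] at hT
      have hpow : ∀ v : FF.Place k (RatFunc k), (-1 : ZMod 3) ^ S.deg v ≠ 1 ↔ Odd (S.deg v) := by
        intro v
        constructor
        · intro h5
          by_contra h7
          rw [Nat.not_odd_iff_even] at h7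
          exact h5 h7.neg_one_pow
        · intro h5
          rw [h5.neg_one_pow]
          exact neg_one_ne
      have hA : Conditions k (-1 : ZMod 3) (-1 : ZMod 3) 1 (coeffA u h) (coeffB u h) := by
        refine ⟨⟨neg_one_ne, neg_one_ne⟩, by simp, ?_⟩
        intro v hv
        rw [eA, eB, Pool.Agent.R427.CC.bad_twist hΔ0 hu] at hv
        have h5 := Pool.Agent.R427.CC.deg_rat h6 hn hnm v hv
        have h7 : Odd (S.deg v) := by
          rw [S.deg_eq]
          exact Odd.of_dvd_nat hm h5
        exact ⟨(hpow v).2 h7, (hpow v).2 h7⟩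
      have hαβ : (-1 : ZMod 3) * (-1) = (Nat.card k : ZMod 3) := by rw [hqz]; ring
      obtain ⟨-, -, hmain⟩ := main (l := 3) h6 hK hΔ Nat.prime_three hlk hαβ hT hZ
      refine ⟨hΔ, ?_, hT, hA, hmain hA⟩
      intro c hc
      rw [div_eq_iff hΔ] at hc
      have e1 : Pool.Agent.R427.CC.cA h ^ 3 + algebraMap k (RatFunc k) c * (h ^ 3 * (1 - h)) = 0 := by
        have e2 : (6912 * algebraMap k (RatFunc k) u ^ 6) *
            (Pool.Agent.R427.CC.cA h ^ 3 + algebraMap k (RatFunc k) c * (h ^ 3 * (1 - h))) = 0 := by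
          have e3 := Pool.Agent.R427.CC.fam_disc h
          rw [eA, eB] at hc
          linear_combination hc + algebraMap k (RatFunc k) c * algebraMap k (RatFunc k) u ^ 6 * e3
        exact (mul_eq_zero.1 e2).resolve_left (mul_ne_zero h6912 (pow_ne_zero 6 hu0))
      have e4 : Pool.Agent.W309.RF.A ((24 * X ^ n - 27) ^ 3 + C c * ((X ^ n) ^ 3 * (1 - X ^ n)) :
          k[X]) = 0 := by
        rw [← e1, Pool.Agent.W309.RF.A_aeval]
        unfold Pool.Agent.R427.CC.cA
        simp [hhd]
        rw [map_ofNat, map_ofNat]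
      have e5 : ((24 * X ^ n - 27) ^ 3 + C c * ((X ^ n) ^ 3 * (1 - X ^ n)) : k[X]) = 0 := by
        by_contra h5
        exact Pool.Agent.W309.RF.A_ne h5 e4
      have e6 := congrArg (Polynomial.eval 0) e5
      simp [hn] at e6
      have e7 : (27 : k) = 3 ^ 3 := by norm_num
      rw [e7] at e6
      exact pow_ne_zero 3 h3 e6
    · intro N
      obtain ⟨m, hm, s, hs, hbad⟩ := Pool.Agent.R427.CC.many_bad (k := k) h6 N
      refine ⟨m, hm, s, hs, fun v hv => ?_⟩
      have h5 := hbad v hv
      set q := Nat.card k with hqd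
      have hX0 : (RatFunc.X : RatFunc k) ≠ 0 := RatFunc.X_ne_zero
      have hq1 : 1 < q := Finite.one_lt_card (α := k)
      have hqm : 1 < q ^ m := Nat.one_lt_pow hm.pos.ne' hq1
      have hn : q ^ m - 1 ≠ 0 := by omega
      have hne1 : (X ^ (q ^ m - 1) - 1 : k[X]) ≠ 0 :=
        X_pow_sub_C_ne_zero (Nat.pos_of_ne_zero hn) 1
      have e : Pool.Agent.W309.RF.A (X ^ (q ^ m - 1) - 1 : k[X]) =
          (RatFunc.X : RatFunc k) ^ (q ^ m - 1) - 1 := by
        rw [Pool.Agent.W309.RF.A_aeval]
        simp
      have hh1 : (RatFunc.X : RatFunc k) ^ (q ^ m - 1) - 1 ≠ 0 := by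
        rw [← e]
        exact Pool.Agent.W309.RF.A_ne hne1
      have h2k : (2 : k) ≠ 0 := by
        intro h
        apply h6
        have : (6 : k) = 2 * 3 := by norm_num
        rw [this, h, zero_mul]
      have h6912 : (6912 : RatFunc k) ≠ 0 := by
        have h1 : (6912 : RatFunc k) = algebraMap k (RatFunc k) 6912 := by rw [map_ofNat]
        rw [h1]
        apply (_root_.map_ne_zero _).2
        have : (6912 : k) = 2 ^ 8 * 3 ^ 3 := by norm_num
        rw [this]
        exact mul_ne_zero (pow_ne_zero _ h2k) (pow_ne_zero _ h3)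
      have hΔ0 : 4 * Pool.Agent.R427.CC.cA ((RatFunc.X : RatFunc k) ^ (q ^ m - 1)) ^ 3 +
          27 * Pool.Agent.R427.CC.cB ((RatFunc.X : RatFunc k) ^ (q ^ m - 1)) ^ 2 ≠ 0 := by
        rw [Pool.Agent.R427.CC.fam_disc]
        refine neg_ne_zero.2 (mul_ne_zero (mul_ne_zero h6912 (pow_ne_zero 3
          (pow_ne_zero _ hX0))) ?_)
        intro h4
        apply hh1
        linear_combination -h4
      have h7 := Pool.Agent.R427.CC.bad_twist hΔ0 hu v
      rw [← h7] at h5
      exact h5

end Pool.Agent.Results.MP_48b749_nt.CongruentToConstant
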