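import Pool.Agent.R427.FT8

/-!
# Elliptic curves over function fields with a point of order five

Every elliptic curve with a point of order five over a field of characteristic at least seven is
isomorphic to `y ^ 2 + (1 - g) x y - g y = x ^ 3 - g x ^ 2` for some `g`; in short form this is
`y ^ 2 = x ^ 3 - 27 (g ^ 4 - 12 g ^ 3 + 14 g ^ 2 + 12 g + 1) x
  + 54 (g ^ 6 - 18 g ^ 5 + 75 g ^ 4 + 75 g ^ 2 + 18 g + 1)`.
-/

set_option autoImplicit false
set_option linter.all false
set_option maxHeartbeats 4000000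

open Polynomial Pool.Agent.W343.BSD Pool.Agent.W313.Gr

namespace Pool.Agent.Results.MP_48b749_nt.FiveTorsionPullbacks

section defs

/-- The coefficient of `x` of the curve `E_g`. -/
def coeffA {K : Type} [Field K] (g : K) : K := -27 * (g ^ 4 - 12 * g ^ 3 + 14 * g ^ 2 + 12 * g + 1)

/-- The constant coefficient of the curve `E_g`. -/
def coeffB {K : Type} [Field K] (g : K) : K :=
  54 * (g ^ 6 - 18 * g ^ 5 + 75 * g ^ 4 + 75 * g ^ 2 + 18 * g + 1)

variable {k K : Type} [Field k] [Field K] [Algebra k K]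

open Classical in
/-- The sum of `5 ^ v₅(deg v)` over the zeros `v` of `g` (without multiplicities). -/
noncomputable def zeroSum (k : Type) {K : Type} [Field k] [Field K] [Algebra k K] (g : K) : ℕ :=
  ∑ᶠ v : FF.Place k K, if 0 < v.ord g then 5 ^ padicValNat 5 (S.deg v) else 0

open Classical in
/-- The sum of `5 ^ v₅(deg v)` over the zeros `v` of `g` (without multiplicities) for which the order
`q_v = q ^ deg v` of the residue field is congruent to `1` modulo five. -/
noncomputable def zeroSumOne (k : Type) {K : Type} [Field k] [Field K] [Algebra k K] (g : K) : ℕ :=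
  ∑ᶠ v : FF.Place k K, if 0 < v.ord g then
    (if 5 ∣ Nat.card k ^ S.deg v - 1 then 5 ^ padicValNat 5 (S.deg v) else 0) else 0

/-- The weight of `g`: the zeros and poles of `g` and the zeros of `g ^ 2 - 11 g - 1` with `q_v`
congruent to `1` modulo five, each counted with weight `5 ^ v₅(deg v)`. -/
noncomputable def weight (k : Type) {K : Type} [Field k] [Field K] [Algebra k K] (g : K) : ℕ :=
  zeroSum k g + zeroSum k g⁻¹ + zeroSumOne k (g ^ 2 - 11 * g - 1)

/-- `y ^ 2 = x ^ 3 + a x + b` is an elliptic curve with a non-constant `j`-invariant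
`6912 a ^ 3 / (4 a ^ 3 + 27 b ^ 2)`. -/
def NonIsotrivial (k : Type) {K : Type} [Field k] [Field K] [Algebra k K] (a b : K) : Prop :=
  4 * a ^ 3 + 27 * b ^ 2 ≠ 0 ∧
    ∀ c : k, 6912 * a ^ 3 / (4 * a ^ 3 + 27 * b ^ 2) ≠ algebraMap k K c

open Classical in
/-- The curve `y ^ 2 = x ^ 3 + a x + b` has a `K`-rational point of order five. -/
def HasOrderFive {K : Type} [Field K] (a b : K) : Prop :=
  ∃ P : (curve a b).toAffine.Point, P ≠ 0 ∧ (5 : ℕ) • P = 0

/-- If `L(T, E)` is `(1 - |k| T) ^ m G(T)` with `G` in `ℤ[T]` then `m ≤ N`. -/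
def OrderBound (k : Type) {K : Type} [Field k] [Field K] [Algebra k K] (a b : K) (N : ℕ) : Prop :=
  ∀ m : ℕ, S.VanishesTo k a b m → m ≤ N

/-- The rank is at least `R` and the order of vanishing `r` of `L(T, E)` at `T = 1 / |k|` (if
`L(T, E)` is a polynomial) is at most `R`. If the rank is at most the order then both are `R`. -/
def RankAndOrder (k : Type) {K : Type} [Field k] [Field K] [Algebra k K] (a b : K) (R : ℕ) : Prop :=
  R ≤ rank a b ∧ OrderBound k a b R ∧
    ∀ r : ℕ, HasOrder k a b r → r ≤ R ∧ (rank a b ≤ r → r = R ∧ rank a b = R)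

/-- `4` if `q` is congruent to `1` modulo five and `2` otherwise. -/
noncomputable def shift (k : Type) : ℕ := if 5 ∣ Nat.card k - 1 then 4 else 2

/-- The sum of the multiplicities of the roots `1 / q` and `1` modulo five of the numerator `P` of the
zeta function of `K`. -/
noncomputable def numRoots (k : Type) (P : Polynomial ℤ) : ℕ :=
  (P.map (Int.castRingHom (ZMod 5))).rootMultiplicity ((Nat.card k : ℕ) : ZMod 5)⁻¹ +
    (P.map (Int.castRingHom (ZMod 5))).rootMultiplicity 1

/-- The curve `E_g` has a non-constant `j`-invariant and a point of order five. If `P` is the numerator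
of the zeta function of `K` then the order of vanishing `m` of `L(T, E_g)` satisfies
`m + shift ≤ numRoots P + weight g`, and if the rank is at least `R` and
`numRoots P + weight g ≤ R + shift`, then `RankAndOrder` holds with this `R`. -/
def Conclusions (k : Type) {K : Type} [Field k] [Field K] [Algebra k K] (g : K) : Prop :=
  NonIsotrivial k (coeffA g) (coeffB g) ∧ HasOrderFive (coeffA g) (coeffB g) ∧
    ∀ P : Polynomial ℤ, S.IsZetaNum k K P →
      (∀ m : ℕ, S.VanishesTo k (coeffA g) (coeffB g) m → m + shift k ≤ numRoots k P + weight k g) ∧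
      ∀ R : ℕ, R ≤ rank (coeffA g) (coeffB g) → numRoots k P + weight k g ≤ R + shift k →
        RankAndOrder k (coeffA g) (coeffB g) R

/-- `RankAndOrder` holds for `E_g` over `k(t)`, where `g` is a polynomial. -/
def RatOK {k : Type} [Field k] (g : k[X]) (R : ℕ) : Prop :=
  RankAndOrder k (coeffA (algebraMap k[X] (RatFunc k) g)) (coeffB (algebraMap k[X] (RatFunc k) g)) R

/-- `RatOK` holds for `g = b(f)`, `f = t`, and if a prime `l ≥ 7` divides `q - 1` then it holds for some
`c` not zero and `f = c t ^ (l ^ j)`, all `j`. -/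
def FamilyOK {k : Type} [Field k] (b : k[X]) : Prop :=
  RatOK b 1 ∧ ∀ l : ℕ, l.Prime → 7 ≤ l → l ∣ Nat.card k - 1 →
    ∃ c : k, c ≠ 0 ∧ ∀ j : ℕ, RatOK (b.comp (C c * X ^ l ^ j)) 1

end defs

section proof

open Pool.Agent.R427 in
theorem thirty {k : Type} [Field k] (h : (30 : k) ≠ 0) :
    (2 : k) ≠ 0 ∧ (3 : k) ≠ 0 ∧ (5 : k) ≠ 0 :=
  ⟨fun e => h (by linear_combination 15 * e), fun e => h (by linear_combination 10 * e),
    fun e => h (by linear_combination 6 * e)⟩

open Pool.Agent.R427 in
theorem order_le {k K : Type} [Field k] [Finite k] [Field K] [Algebra k K]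
    (hK : IsCurveField k K) (h : (30 : k) ≠ 0) {g : K} (hg : ∀ c : k, g ≠ algebraMap k K c)
    {P : Polynomial ℤ} (hP : S.IsZetaNum k K P) (m : ℕ)
    (hm : S.VanishesTo k (coeffA g) (coeffB g) m) :
    m + shift k ≤ numRoots k P + weight k g := by
  haveI : FF.IsFF k K := ⟨hK.essFiniteType, hK.trdeg_eq_one⟩
  have hr : constDeg k K = 1 := TH958.T4.constDeg_eq_one hK.algClosed
  obtain ⟨h2, h3, h5⟩ := thirty h
  have htr := TH180.R2.transc hr hg
  obtain ⟨g0, g1, -⟩ := FT.ne_facts h2 h3 htr
  exact FT.bound h2 h3 h5 g0 g1 ((S.isZetaNum_iff P).1 hP) hr hm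

open Pool.Agent.R427 in
/-- the conclusions for one curve -/
theorem common {k K : Type} [Field k] [Finite k] [Field K] [Algebra k K] (hK : IsCurveField k K)
    (h : (30 : k) ≠ 0) {g : K} (hg : ∀ c : k, g ≠ algebraMap k K c) : Conclusions k g := by
  haveI : FF.IsFF k K := ⟨hK.essFiniteType, hK.trdeg_eq_one⟩
  have hr : constDeg k K = 1 := TH958.T4.constDeg_eq_one hK.algClosed
  obtain ⟨h2, h3, h5⟩ := thirty h
  have htr := TH180.R2.transc hr hg
  obtain ⟨g0, g1, hΔ⟩ := FT.ne_facts h2 h3 htr
  have h2K : (2 : K) ≠ 0 := by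
    have : algebraMap k K 2 ≠ 0 := by simpa using h2
    rwa [map_ofNat] at this
  have h3K : (3 : K) ≠ 0 := by
    have : algebraMap k K 3 ≠ 0 := by simpa using h3
    rwa [map_ofNat] at this
  refine ⟨⟨hΔ, fun c hc => FT.noniso h2 h3 htr c ((div_eq_iff hΔ).1 hc)⟩,
    FT.five_tors h2K h3K g0, fun P hP => ?_⟩
  have hb := order_le hK h hg hP
  refine ⟨hb, fun R hR hw => ?_⟩
  have hU : ∀ m : ℕ, S.VanishesTo k (coeffA g) (coeffB g) m → m ≤ R := by
    intro m hm
    have := hb m hm
    omega
  exact ⟨hR, hU, fun r hr' => TH180.R4.concl4 hR hU r hr'⟩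

theorem poly_nonconst {k : Type} [Field k] {g : k[X]} (hg : 0 < g.natDegree) (c : k) :
    algebraMap k[X] (RatFunc k) g ≠ algebraMap k (RatFunc k) c := by
  intro hz
  have h1 : g = C c := RatFunc.algebraMap_injective k hz
  rw [h1, natDegree_C] at hg
  exact lt_irrefl _ hg

theorem numRoots_one (k : Type) : numRoots k 1 = 0 := by
  unfold numRoots
  rw [Polynomial.map_one]
  have h : ∀ x : ZMod 5, (1 : (ZMod 5)[X]).rootMultiplicity x = 0 := by
    intro x
    apply rootMultiplicity_eq_zero
    rw [IsRoot.def, eval_one]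
    decide
  rw [h, h]

/-- over the rational function field -/
theorem rat {k : Type} [Field k] [Finite k] (h : (30 : k) ≠ 0) {g : k[X]} (hg : 0 < g.natDegree)
    {R : ℕ} (hR : R ≤ rank (coeffA (algebraMap k[X] (RatFunc k) g))
      (coeffB (algebraMap k[X] (RatFunc k) g)))
    (hw : weight k (algebraMap k[X] (RatFunc k) g) ≤ R + shift k) : RatOK g R := by
  have h1 := (common Pool.Agent.TH958.T4.isCurveField_rat h (poly_nonconst hg)).2.2 1
    Pool.Agent.W309.RF.isZetaNum_rat
  apply h1.2 R hR
  rw [numRoots_one, zero_add]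
  exact hw

theorem two_le_shift (k : Type) : 2 ≤ shift k := by
  unfold shift
  split_ifs <;> norm_num

open Pool.Agent.R427 in
theorem rank_fam {k K : Type} [Field k] [Finite k] [Field K] [Algebra k K] (hK : IsCurveField k K)
    (h : (30 : k) ≠ 0) {b : k[X]}
    (hb : 1 ≤ rank (coeffA (algebraMap k[X] (RatFunc k) b)) (coeffB (algebraMap k[X] (RatFunc k) b)))
    {f : K} (hf : ∀ c : k, f ≠ algebraMap k K c) :
    1 ≤ rank (coeffA (aeval f b)) (coeffB (aeval f b)) := by
  haveI : FF.IsFF k K := ⟨hK.essFiniteType, hK.trdeg_eq_one⟩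
  have hr : constDeg k K = 1 := TH958.T4.constDeg_eq_one hK.algClosed
  exact hb.trans (FT.rank_pull b (TH180.R2.transc hr hf))

open Pool.Agent.R427 in
theorem family {k : Type} [Field k] [Finite k] (h : (30 : k) ≠ 0) {b : k[X]} (hd : b.natDegree = 2)
    (hb : 1 ≤ rank (coeffA (algebraMap k[X] (RatFunc k) b)) (coeffB (algebraMap k[X] (RatFunc k) b)))
    (hW : FT.W k (algebraMap k[X] (RatFunc k) b) ≤ 3 ∧ ∀ l : ℕ, l.Prime → 7 ≤ l →
      l ∣ Nat.card k - 1 → ∃ c : k, c ≠ 0 ∧ ∀ j : ℕ,
        FT.W k (algebraMap k[X] (RatFunc k) (b.comp (C c * X ^ l ^ j))) ≤ 3) : FamilyOK b := by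
  have hs := two_le_shift k
  refine ⟨rat h (by omega) (by rw [Nat.cast_one]; exact hb)
    ((show weight k _ = FT.W k _ from rfl).le.trans (hW.1.trans (by omega))), ?_⟩
  intro l hl hl7 hdv
  obtain ⟨c, hc, hj⟩ := hW.2 l hl hl7 hdv
  refine ⟨c, hc, fun j => ?_⟩
  have hmd : (C c * X ^ l ^ j : k[X]).natDegree = l ^ j := natDegree_C_mul_X_pow _ _ hc
  have hpos : 0 < l ^ j := pow_pos hl.pos j
  apply rat h (by rw [natDegree_comp, hd, hmd]; omega)
  · have h1 := rank_fam Pool.Agent.TH958.T4.isCurveField_rat h hb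
      (f := algebraMap k[X] (RatFunc k) (C c * X ^ l ^ j)) (poly_nonconst (by rw [hmd]; exact hpos))
    have e : aeval (algebraMap k[X] (RatFunc k) (C c * X ^ l ^ j)) b =
        algebraMap k[X] (RatFunc k) (b.comp (C c * X ^ l ^ j)) := FT.aeval_A _ _
    rw [e] at h1
    rw [Nat.cast_one]
    exact h1
  · exact (show weight k _ = FT.W k _ from rfl).le.trans ((hj j).trans (by omega))

end proof

/-- Let `k` be a finite field of characteristic at least `7` with `q` elements. For `g` in a function
field `K` over `k` let `E_g` be the curve `y ^ 2 = x ^ 3 + A(g) x + B(g)` with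
`A = -27 (g ^ 4 - 12 g ^ 3 + 14 g ^ 2 + 12 g + 1)` and
`B = 54 (g ^ 6 - 18 g ^ 5 + 75 g ^ 4 + 75 g ^ 2 + 18 g + 1)`.

(1) Let `K` be the function field of a curve over `k` and `g` in `K` non-constant. Then `E_g` has a
non-constant `j`-invariant and a point of order five. Its `L`-function vanishes at `1 / q` to order at
most `N + W - s`, where `N` is the number of roots `1` and `1 / q` modulo five of the numerator of the
zeta function of `K`, `W` is the number of the zeros and poles of `g` and the zeros of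
`g ^ 2 - 11 g - 1` with `q_v` congruent to `1` modulo five, a place `v` counted with weight
`5 ^ v₅(deg v)`, and `s` is `4` if `q` is congruent to `1` modulo five and `2` otherwise. If the rank is
at least `R` and `N + W - s` is at most `R`, the order is at most `R`, and rank and order are `R` if the
rank is at most the order.

(2) If `m` is odd and divides `q ^ n - 1` for some `n` for which five divides `q ^ n + 1`, then the last
conclusion of (1) holds over `K = k(t)` with `R = 0` for `g = c t ^ m` for all `c` not zero. If five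
divides `q - 1` and `l ≥ 3` is a prime not equal to five dividing `q - 1`, it holds with `R = 0` for some
`c` not zero and `g = c t ^ (l ^ j)` for all `j`.

(3) For `f` in `K` non-constant the rank of `E_g` over `K` is at least one for `g = -(f ^ 2 + f + 1)` and
`g = f (2 - f)`. Let `K = k(t)` and let `q` be congruent to `2` or `3` modulo five. If `q` is congruent
to `2` modulo three, the conclusion holds with `R = 1` for `g = -(f ^ 2 + f + 1)`, and if `-11` is a
square in `k`, it holds with `R = 1` for `g = f (2 - f)`, where `f = t` or, if a prime `l ≥ 7` divides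
`q - 1`, `f = c t ^ (l ^ j)` for some `c` not zero and all `j`. -/
theorem result :
    (∀ (k K : Type) [Field k] [Finite k] [Field K] [Algebra k K], (30 : k) ≠ 0 → IsCurveField k K →
      (∀ g : K, (∀ c : k, g ≠ algebraMap k K c) → Conclusions k g) ∧
      ∀ f : K, (∀ c : k, f ≠ algebraMap k K c) →
        1 ≤ rank (coeffA (-(f ^ 2 + f + 1))) (coeffB (-(f ^ 2 + f + 1))) ∧
        1 ≤ rank (coeffA (f * (2 - f))) (coeffB (f * (2 - f)))) ∧
    ∀ (k : Type) [Field k] [Finite k], (30 : k) ≠ 0 →
      (∀ m n : ℕ, Odd m → m ∣ Nat.card k ^ n - 1 → 5 ∣ Nat.card k ^ n + 1 →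
        ∀ c : k, c ≠ 0 → RatOK (C c * X ^ m) 0) ∧
      (5 ∣ Nat.card k - 1 → ∀ l : ℕ, l.Prime → 3 ≤ l → l ≠ 5 → l ∣ Nat.card k - 1 →
        ∃ c : k, c ≠ 0 ∧ ∀ j : ℕ, RatOK (C c * X ^ l ^ j) 0) ∧
      (Nat.card k % 5 = 2 ∨ Nat.card k % 5 = 3 →
        (Nat.card k % 3 = 2 → FamilyOK (-(X ^ 2 + X + 1) : k[X])) ∧
        (IsSquare (-11 : k) → FamilyOK (X * (2 - X) : k[X]))) := by
  classical
  refine ⟨?_, ?_⟩
  · intro k K _ _ _ _ h hK
    obtain ⟨h2, h3, h5⟩ := thirty h
    refine ⟨fun g hg => common hK h hg, fun f hf => ⟨?_, ?_⟩⟩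
    · have h1 := rank_fam hK h (Pool.Agent.R427.FT.rank_b1 h2 h3) hf
      have e : aeval f (Pool.Agent.R427.FT.b1 k) = -(f ^ 2 + f + 1) := by
        unfold Pool.Agent.R427.FT.b1
        simp
      rwa [e] at h1
    · have h1 := rank_fam hK h (Pool.Agent.R427.FT.rank_b2 h2 h3) hf
      have e : aeval f (Pool.Agent.R427.FT.b2 k) = f * (2 - f) := by
        unfold Pool.Agent.R427.FT.b2
        rw [map_mul, map_sub, aeval_X, map_ofNat]
      rwa [e] at h1
  · intro k _ _ h
    obtain ⟨h2, h3, h5⟩ := thirty h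
    refine ⟨?_, ?_, ?_⟩
    · intro m n hm hmn h5n c hc
      have hmd : (C c * X ^ m : k[X]).natDegree = m := natDegree_C_mul_X_pow _ _ hc
      apply rat h (by rw [hmd]; exact hm.pos)
      · rw [Nat.cast_zero]; exact zero_le
      · exact (show weight k _ = Pool.Agent.R427.FT.W k _ from rfl).le.trans
          ((Pool.Agent.R427.FT.W_mono h5 hc hm hmn h5n).trans (by have := two_le_shift k; omega))
    · intro hq l hl hl3 hl5 hd
      obtain ⟨c, hc, hj⟩ := Pool.Agent.R427.FT.exists_W (k := k) hl hl3 hl5 hd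
      refine ⟨c, hc, fun j => ?_⟩
      have hmd : (C c * X ^ l ^ j : k[X]).natDegree = l ^ j := natDegree_C_mul_X_pow _ _ hc
      apply rat h (by rw [hmd]; exact pow_pos hl.pos j)
      · rw [Nat.cast_zero]; exact zero_le
      · refine (show weight k _ = Pool.Agent.R427.FT.W k _ from rfl).le.trans ((hj j).trans ?_)
        unfold shift
        rw [if_pos hq]
    · intro hq
      exact ⟨fun hq3 => family h Pool.Agent.R427.FT.deg_b1 (Pool.Agent.R427.FT.rank_b1 h2 h3)
          (Pool.Agent.R427.FT.exists_b1 h3 hq3 hq),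
        fun h11 => family h Pool.Agent.R427.FT.deg_b2 (Pool.Agent.R427.FT.rank_b2 h2 h3)
          (Pool.Agent.R427.FT.exists_b2 h2 hq h11)⟩

end Pool.Agent.Results.MP_48b749_nt.FiveTorsionPullbacks
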