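import Pool.Agent.R427.QC6

/-!
# Pull-backs of elliptic surfaces whose two-division field is a pure cubic field, ranks one, three, four

The curves are `y ^ 2 = x ^ 3 - 3 α β μ x - μ (α ^ 3 + β ^ 3 μ)`. The points of order two have the
abscissas `α s + β s ^ 2`, where `s` is a cube root of `μ`. We take `α`, `β` in `k[T]`, `μ = T`, and
replace `T` by an element `f` of a function field `K` over `k`.
-/

set_option autoImplicit false
set_option linter.all false
set_option maxHeartbeats 4000000

open Polynomial Pool.Agent.W343.BSD Pool.Agent.W313.Gr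

namespace Pool.Agent.Results.MP_48b749_nt.PureCubicPullbacks

section defs

variable {k K : Type} [Field k] [Field K] [Algebra k K]

/-- The coefficient of `x` of the curve `E_f`: it is `-3 α(f) β(f) f`. -/
noncomputable def coeffA (α β : k[X]) (f : K) : K := -(3 * aeval f α * aeval f β * f)

/-- The constant coefficient of the curve `E_f`: it is `-f (α(f) ^ 3 + β(f) ^ 3 f)`. -/
noncomputable def coeffB (α β : k[X]) (f : K) : K := -(f * (aeval f α ^ 3 + aeval f β ^ 3 * f))

/-- The polynomials `α` and `β` are coprime, `α(0)` and `β` are not zero. -/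
def Nice (α β : k[X]) : Prop := IsCoprime α β ∧ α.coeff 0 ≠ 0 ∧ β ≠ 0

/-- The polynomial `δ = α ^ 3 - T β ^ 3`. The discriminant of `E_f` is `-432 f ^ 2 δ(f) ^ 2`. -/
noncomputable def delta (α β : k[X]) : k[X] := α ^ 3 - X * β ^ 3

/-- The rank of `E` over `k(T)` is at least `R`. -/
def RankOverLine (α β : k[X]) (R : ℕ) : Prop :=
  R ≤ rank (coeffA α β (RatFunc.X : RatFunc k)) (coeffB α β (RatFunc.X : RatFunc k))

open Classical in
/-- The sum of `2 ^ v₂(deg v)` over the zeros `v` of `g` (without multiplicities). -/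
noncomputable def zeroSum (k : Type) {K : Type} [Field k] [Field K] [Algebra k K] (g : K) : ℕ :=
  ∑ᶠ v : FF.Place k K, if 0 < v.ord g then 2 ^ padicValNat 2 (S.deg v) else 0

/-- `y ^ 2 = x ^ 3 + a x + b` is an elliptic curve with a non-constant `j`-invariant
`6912 a ^ 3 / (4 a ^ 3 + 27 b ^ 2)`. -/
def NonIsotrivial (k : Type) {K : Type} [Field k] [Field K] [Algebra k K] (a b : K) : Prop :=
  4 * a ^ 3 + 27 * b ^ 2 ≠ 0 ∧
    ∀ c : k, 6912 * a ^ 3 / (4 * a ^ 3 + 27 * b ^ 2) ≠ algebraMap k K c

/-- If `L(T, E)` is `(1 - |k| T) ^ m G(T)` with `G` in `ℤ[T]` then `m ≤ N`. -/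
def OrderBound (k : Type) {K : Type} [Field k] [Field K] [Algebra k K] (a b : K) (N : ℕ) : Prop :=
  ∀ m : ℕ, S.VanishesTo k a b m → m ≤ N

/-- The rank is at least `R` and the order of vanishing `r` of `L(T, E)` at `T = 1 / |k|` (if
`L(T, E)` is a polynomial) is at most `R`. If the rank is at most the order then both are `R`. -/
def RankAndOrder (k : Type) {K : Type} [Field k] [Field K] [Algebra k K] (a b : K) (R : ℕ) : Prop :=
  R ≤ rank a b ∧ OrderBound k a b R ∧
    ∀ r : ℕ, HasOrder k a b r → r ≤ R ∧ (rank a b ≤ r → r = R ∧ rank a b = R)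

/-- `f` has no zeros and poles of order congruent to `3` modulo `6`, and it has a cube root `s` in an
extension `L = K(s)` of degree three of `K`, which is the function field of a curve with field of
constants `k` and odd class number. -/
def HasCubeRoot (k : Type) {K : Type} [Field k] [Field K] [Algebra k K] (f : K) : Prop :=
  (∀ v : FF.Place k K, (3 : ℤ) ∣ v.ord f → (6 : ℤ) ∣ v.ord f) ∧
    ∃ (L : Type) (_ : Field L) (_ : Algebra k L) (_ : Algebra K L) (_ : IsScalarTower k K L) (s : L),
      s ^ 3 = algebraMap K L f ∧ IntermediateField.adjoin K {s} = ⊤ ∧ Module.finrank K L = 3 ∧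
      IsCurveField k L ∧ Odd (S.classNumber k L)

/-- The parameters of the surfaces of rank three. -/
def IsParamThree (p q c : k) : Prop :=
  c ^ 2 = p ^ 2 + p * q + q ^ 2 ∧
    p * q * (p + q) * (p - q) * (2 * p + q) * (p + 2 * q) * c ≠ 0

/-- The parameters of the surfaces of rank four. -/
def IsParamFour (p q r s : k) : Prop :=
  p * q + p * r + p * s + q * r + q * s + r * s = 0 ∧
    IsSquare (q + r + s) ∧ IsSquare (p + r + s) ∧ IsSquare (p + q + s) ∧ IsSquare (p + q + r) ∧
    p * q * r * s * (p ^ 3 - q ^ 3) * (p ^ 3 - r ^ 3) * (p ^ 3 - s ^ 3) * (q ^ 3 - r ^ 3) *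
      (q ^ 3 - s ^ 3) * (r ^ 3 - s ^ 3) ≠ 0

/-- `E` over `k(T)` satisfies the conditions, `δ` has degree `R`, and the rank is at least `R`. -/
def IsFull (α β : k[X]) (R : ℕ) : Prop :=
  Nice α β ∧ (delta α β).natDegree = R ∧ RankOverLine α β R

/-- The curve `E_f` has a non-constant `j`-invariant and no point of order two (the cubic has no zero
in `K`). The order of vanishing of `L(T, E_f)` is at most the sum of `2 ^ v₂(deg v)` over the zeros `v`
of `δ(f)`. If the rank of `E` over `k(T)` is at least `R` then so is the rank of `E_f`; if also the sum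
is at most `R`, then `RankAndOrder` holds for `E_f` with this `R`. -/
def Conclusions (α β : k[X]) (f : K) : Prop :=
  NonIsotrivial k (coeffA α β f) (coeffB α β f) ∧
    (∀ x : K, x ^ 3 + coeffA α β f * x + coeffB α β f ≠ 0) ∧
    OrderBound k (coeffA α β f) (coeffB α β f) (zeroSum k (aeval f (delta α β))) ∧
    ∀ R : ℕ, RankOverLine α β R → R ≤ rank (coeffA α β f) (coeffB α β f) ∧
      (zeroSum k (aeval f (delta α β)) ≤ R → RankAndOrder k (coeffA α β f) (coeffB α β f) R)

/-- The curve `E` over `k(T)` is full for `α = β = -1`, `R = 1`, and for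
`α = -p q (p + q) - T`, `β = -c ^ 2`, `R = 3`, and for `α = e₄ - e₁ T`, `β = e₃ - T` (elementary
symmetric functions of `p, q, r, s`), `R = 4`, if `p, q, c` or `p, q, r, s` are parameters. There are
parameters `p, q, c` if `k` has at least `14` elements, and parameters `p, q, r, s` if the
characteristic of `k` is `17` or at least `29`. -/
def Families (k : Type) [Field k] : Prop :=
  IsFull (-1 : k[X]) (-1) 1 ∧
    (∀ p q c : k, IsParamThree p q c → IsFull (-C (p * q * (p + q)) - X) (-C (c ^ 2)) 3) ∧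
    (∀ p q r s : k, IsParamFour p q r s → IsFull (C (p * q * r * s) - C (p + q + r + s) * X)
      (C (p * q * r + p * q * s + p * r * s + q * r * s) - X) 4) ∧
    (14 ≤ Nat.card k → ∃ p q c : k, IsParamThree p q c) ∧
    ((∃ p : ℕ, CharP k p ∧ (p = 17 ∨ 29 ≤ p)) → ∃ p q r s : k, IsParamFour p q r s)

/-- `RankAndOrder` holds over `k(t)` for `E_f`, `f = c ^ 6 t ^ (l ^ j)`, for some non-zero `c` and all
`j`. -/
def PowersOK (α β : k[X]) (R l : ℕ) : Prop :=
  ∃ c : k, c ≠ 0 ∧ ∀ j : ℕ,
    RankAndOrder k (coeffA α β (algebraMap k[X] (RatFunc k) (C (c ^ 6) * X ^ l ^ j)))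
      (coeffB α β (algebraMap k[X] (RatFunc k) (C (c ^ 6) * X ^ l ^ j))) R

end defs

section proof

open Pool.Agent.R427 in
theorem nice_iff {k : Type} [Field k] {α β : k[X]} (h : Nice α β) : QC.Nice α β :=
  ⟨h.1, h.2.1, h.2.2⟩

open Pool.Agent.R427 in
/-- the conclusions for one curve -/
theorem common {k K : Type} [Field k] [Finite k] [Field K] [Algebra k K] (hK : IsCurveField k K)
    (h6 : (6 : k) ≠ 0) {α β : k[X]} (h : Nice α β) {f : K} (hf : ∀ c : k, f ≠ algebraMap k K c)
    (hL : HasCubeRoot k f) :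
    NonIsotrivial k (coeffA α β f) (coeffB α β f) ∧
      (∀ x : K, x ^ 3 + coeffA α β f * x + coeffB α β f ≠ 0) ∧
      OrderBound k (coeffA α β f) (coeffB α β f) (zeroSum k (aeval f (delta α β))) ∧
      ∀ R : ℕ, RankOverLine α β R → R ≤ rank (coeffA α β f) (coeffB α β f) ∧
        (zeroSum k (aeval f (delta α β)) ≤ R →
          RankAndOrder k (coeffA α β f) (coeffB α β f) R) := by
  haveI : FF.IsFF k K := ⟨hK.essFiniteType, hK.trdeg_eq_one⟩
  have hr : constDeg k K = 1 := TH958.T4.constDeg_eq_one hK.algClosed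
  have h' := nice_iff h
  have htr := TH180.R2.transc hr hf
  obtain ⟨ho, L, _, _, _, _, s, hs, hgen, hdeg, hLc, hodd⟩ := hL
  have hi := QC.isIntegral_s hs
  have hfd : FiniteDimensional K L := fd_of_gen hi hgen
  haveI : FF.IsFF k L := ⟨hLc.essFiniteType, hLc.trdeg_eq_one⟩
  have hrL : constDeg k L = 1 := TH958.T4.constDeg_eq_one hLc.algClosed
  have hb : OrderBound k (coeffA α β f) (coeffB α β f) (zeroSum k (aeval f (delta α β))) :=
    fun m hm => QC.upper h6 hr hrL hodd h' htr ho hs hgen hdeg m hm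
  refine ⟨?_, ?_, hb, ?_⟩
  · have hΔ : 4 * coeffA α β f ^ 3 + 27 * coeffB α β f ^ 2 ≠ 0 := QC.disc_ne h6 h' htr
    exact ⟨hΔ, fun c hc => QC.noniso h6 h' htr c ((div_eq_iff hΔ).1 hc)⟩
  · exact QC.no_root (TH180.R4.aeval_ne htr h'.b0) hs hgen hdeg
  · intro R hR
    have hrank : R ≤ rank (coeffA α β f) (coeffB α β f) := by
      have h1 := QC.rank_pull α β htr
      rw [W309.RF.A_aeval, W309.RF.A_aeval] at h1
      exact (show (R : Cardinal) ≤ _ from hR).trans h1
    refine ⟨hrank, fun hw => ?_⟩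
    have hU : ∀ m : ℕ, S.VanishesTo k (coeffA α β f) (coeffB α β f) m → m ≤ R :=
      fun m hm => (hb m hm).trans hw
    exact ⟨hrank, hU, fun r hr' => TH180.R4.concl4 hrank hU r hr'⟩

open Pool.Agent.R427 in
theorem cube_rat {k : Type} [Field k] [Finite k] {m : ℕ} (hm : ¬ 3 ∣ m) {g : RatFunc k}
    (hg : g ≠ 0) : HasCubeRoot k (RatFunc.X ^ m * g ^ 6) := by
  obtain ⟨s1, s2, s3⟩ := W309.RK.sb k
  obtain ⟨s, hs, hgen⟩ := QC.exists_root hm hg
  exact ⟨QC.orders hm hg, QC.Cub k, inferInstance, inferInstance, inferInstance, inferInstance, s,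
    hs, hgen, QC.finrank_cub, TH958.T4.isCurveField_rat, s3⟩

open Pool.Agent.R427 in
/-- the three families -/
theorem full_one {k : Type} [Field k] [Finite k] (h6 : (6 : k) ≠ 0) : IsFull (-1 : k[X]) (-1) 1 := by
  obtain ⟨h1, h2⟩ := QC.rank_one h6
  refine ⟨⟨h1.cop, h1.a0, h1.b0⟩, ?_, ?_⟩
  · have := QC.natDegree_disc h1
    rw [natDegree_neg, natDegree_one] at this
    exact this
  · unfold RankOverLine
    rw [W309.RF.A_aeval] at h2
    exact h2

open Pool.Agent.R427 in
theorem full_three {k : Type} [Field k] [Finite k] (h6 : (6 : k) ≠ 0) {p q c : k}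
    (h : IsParamThree p q c) : IsFull (-C (p * q * (p + q)) - X) (-C (c ^ 2)) 3 := by
  obtain ⟨h1, h2⟩ := QC.rank_three h6 h.1 h.2
  refine ⟨⟨h1.cop, h1.a0, h1.b0⟩, ?_, ?_⟩
  · have := QC.natDegree_disc h1
    have e1 : (-C (p * q * (p + q)) - X : k[X]).natDegree = 1 := by
      rw [← C_neg, natDegree_sub, natDegree_X_sub_C]
    rw [natDegree_neg, natDegree_C, e1] at this
    exact this
  · unfold RankOverLine
    rw [W309.RF.A_aeval, W309.RF.A_aeval] at h2
    exact h2

open Pool.Agent.R427 in
theorem par_four {k : Type} [Field k] [Finite k] {p q r s : k} (h : IsParamFour p q r s) :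
    QC.Par4 p q r s := by
  obtain ⟨h1, h2, h3, h4, h5, h6⟩ := h
  refine ⟨h1, ?_, ?_, ?_, ?_, ?_, ?_, ?_, ?_, ?_, ?_, h2, h3, h4, h5⟩
  all_goals
    intro h0
    apply h6
    try rw [h0]
    ring

open Pool.Agent.R427 in
theorem full_four {k : Type} [Field k] [Finite k] (h6 : (6 : k) ≠ 0) {p q r s : k}
    (h : IsParamFour p q r s) : IsFull (C (p * q * r * s) - C (p + q + r + s) * X)
      (C (p * q * r + p * q * s + p * r * s + q * r * s) - X) 4 := by
  have h1 := QC.nice_four (par_four h)
  have h2 := QC.rank_four h6 (par_four h)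
  refine ⟨⟨h1.cop, h1.a0, h1.b0⟩, ?_, ?_⟩
  · have := QC.natDegree_disc h1
    have e1 : (C (p * q * r * s) - C (p + q + r + s) * X : k[X]).natDegree ≤ 1 := by compute_degree
    have e2 : (C (p * q * r + p * q * s + p * r * s + q * r * s) - X : k[X]).natDegree = 1 := by
      compute_degree!
    rw [e2, max_eq_right (by omega)] at this
    exact this
  · unfold RankOverLine
    rw [W309.RF.A_aeval, W309.RF.A_aeval] at h2
    exact h2

end proof

/-- Let `k` be a finite field of characteristic at least `5` with `q` elements.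

(1) Let `K` be the function field of a curve over `k`, let `f` in `K` be non-constant, without zeros
and poles of order congruent to `3` modulo `6`, with a cube root `s` such that `L = K(s)` has degree
three over `K`, the field of constants `k` and odd class number. Let `α` and `β` in `k[T]` be coprime
with `α(0)` and `β` not zero, `δ = α ^ 3 - T β ^ 3`, and let `E` be the curve
`y ^ 2 = x ^ 3 - 3 α β T x - T (α ^ 3 + β ^ 3 T)` over `k(T)`. Then
`E_f : y ^ 2 = x ^ 3 - 3 α(f) β(f) f x - f (α(f) ^ 3 + β(f) ^ 3 f)` over `K` has a non-constant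
`j`-invariant and no point of order two (the cubic has no zero in `K`). Its `L`-function vanishes at
`1 / q` to order at most the sum of `2 ^ v₂(deg v)` over the zeros `v` of `δ(f)`. If the rank of `E`
over `k(T)` is at least `R` then so is the rank of `E_f`; if also the sum is at most `R` then the
order is at most `R`, and rank and order are `R` if the rank is at most the order.

(2) The rank of `E` over `k(T)` is at least the degree `R` of `δ` for the surfaces with
`α = β = -1`, `R = 1`, and for the families with `α = -p q (p + q) - T`, `β = -c ^ 2`, `R = 3`, and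
`α = e₄ - e₁ T`, `β = e₃ - T` (elementary symmetric functions of `p, q, r, s`), `R = 4`. There are
parameters of rank three if `q ≥ 14`, and parameters of rank four if the characteristic of `k` is `17`
or at least `29`.

(3) If `K = k(t)`, the functions `f = t ^ m g ^ 6`, with `m` prime to `3` and `g` not zero, satisfy the
conditions in (1).

(4) If the rank of `E` over `k(T)` is at least the degree `R` of `δ`, and a prime `l ≥ 5`, `l > R`,
divides `q - 1`, then the last conclusion of (1) holds over `K = k(t)` with this `R` for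
`f = c ^ 6 t ^ (l ^ j)`, for some `c` not zero and all `j`. -/
theorem result :
    (∀ (k K : Type) [Field k] [Finite k] [Field K] [Algebra k K], (6 : k) ≠ 0 → IsCurveField k K →
      ∀ α β : k[X], Nice α β → ∀ f : K, (∀ c : k, f ≠ algebraMap k K c) → HasCubeRoot k f →
      Conclusions α β f) ∧
    ∀ (k : Type) [Field k] [Finite k], (6 : k) ≠ 0 →
      Families k ∧
      (∀ (m : ℕ) (g : RatFunc k), ¬ 3 ∣ m → g ≠ 0 → HasCubeRoot k (RatFunc.X ^ m * g ^ 6)) ∧
      ∀ (α β : k[X]) (R : ℕ), IsFull α β R → ∀ l : ℕ, l.Prime → 5 ≤ l → R < l →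
        l ∣ Nat.card k - 1 → PowersOK α β R l := by
  classical
  refine ⟨?_, ?_⟩
  · intro k K _ _ _ _ h6 hK α β h f hf hL
    exact common hK h6 h hf hL
  · intro k _ _ h6
    refine ⟨⟨full_one h6, fun p q c h => full_three h6 h, fun p q r s h => full_four h6 h, ?_, ?_⟩,
      fun m g hm hg => cube_rat hm hg, ?_⟩
    · intro hq
      obtain ⟨p, q, c, h1, h2⟩ := Pool.Agent.R427.QC.exists_three h6 hq
      exact ⟨p, q, c, h1, h2⟩
    · rintro ⟨p, hp, hp2⟩
      have hpp : p.Prime := by
        rcases CharP.char_is_prime_or_zero k p with h | h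
        · exact h
        · omega
      haveI : Fact p.Prime := ⟨hpp⟩
      obtain ⟨a, b, c, d, h⟩ := Pool.Agent.R427.QC.exists_four (k := k) hp2
      refine ⟨a, b, c, d, h.e2, h.sp, h.sq, h.sr, h.ss, ?_⟩
      exact mul_ne_zero (mul_ne_zero (mul_ne_zero (mul_ne_zero (mul_ne_zero (mul_ne_zero (mul_ne_zero
        (mul_ne_zero (mul_ne_zero h.p0 h.q0) h.r0) h.s0) (sub_ne_zero.2 h.pq)) (sub_ne_zero.2 h.pr))
        (sub_ne_zero.2 h.ps)) (sub_ne_zero.2 h.qr)) (sub_ne_zero.2 h.qs)) (sub_ne_zero.2 h.rs)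
    · intro α β R hF l hl hl5 hRl hd
      obtain ⟨hn, hdeg, hR⟩ := hF
      have hn' := nice_iff hn
      have h0 : (α ^ 3 - X * β ^ 3).coeff 0 ≠ 0 := by
        rw [coeff_sub, mul_coeff_zero, coeff_X_zero, zero_mul, sub_zero,
          coeff_zero_eq_eval_zero, eval_pow, ← coeff_zero_eq_eval_zero]
        exact pow_ne_zero 3 hn.2.1
      obtain ⟨c, hc, hirr⟩ := Pool.Agent.R427.QC.exists_c (g := α ^ 3 - X * β ^ 3) h0 hl hl5
        (lt_of_eq_of_lt hdeg hRl) hd
      refine ⟨c, hc, fun j => ?_⟩
      have hc6 : c ^ 6 ≠ 0 := pow_ne_zero 6 hc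
      have hl3 : ¬ 3 ∣ l ^ j := by
        intro h3
        have h5 := Nat.prime_three.dvd_of_dvd_pow h3
        have := (Nat.prime_dvd_prime_iff_eq Nat.prime_three hl).1 h5
        omega
      have hlodd : Odd (l ^ j) := Odd.pow (hl.odd_of_ne_two (by omega))
      have hmd : (C (c ^ 6) * X ^ l ^ j : k[X]).natDegree = l ^ j := natDegree_C_mul_X_pow _ _ hc6
      have e : algebraMap k[X] (RatFunc k) (C (c ^ 6) * X ^ l ^ j) =
          RatFunc.X ^ l ^ j * algebraMap k (RatFunc k) c ^ 6 := by
        have e3 : algebraMap k[X] (RatFunc k) (C (c ^ 6)) = algebraMap k (RatFunc k) (c ^ 6) := rfl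
        rw [map_mul, map_pow _ X, RatFunc.algebraMap_X, mul_comm, e3, ← map_pow]
      have hf : ∀ z : k, algebraMap k[X] (RatFunc k) (C (c ^ 6) * X ^ l ^ j) ≠
          algebraMap k (RatFunc k) z := by
        intro z hz
        have h1 : (C (c ^ 6) * X ^ l ^ j : k[X]) = C z := RatFunc.algebraMap_injective k hz
        rw [h1, natDegree_C] at hmd
        exact (pow_pos hl.pos j).ne hmd
      have hcr : HasCubeRoot k (algebraMap k[X] (RatFunc k) (C (c ^ 6) * X ^ l ^ j)) := by
        rw [e]
        exact cube_rat hl3 ((_root_.map_ne_zero _).2 hc)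
      have hz : zeroSum k (aeval (algebraMap k[X] (RatFunc k) (C (c ^ 6) * X ^ l ^ j))
          (delta α β)) ≤ R := by
        have h1 := Pool.Agent.TH180.R4.zSum_comp (m := C (c ^ 6) * X ^ l ^ j)
          (by rw [hmd]; exact hlodd) (α ^ 3 - X * β ^ 3) hn'.disc (fun π hπ hdv => hirr j π hπ hdv)
        have e2 : aeval (algebraMap k[X] (RatFunc k) (C (c ^ 6) * X ^ l ^ j)) (delta α β) =
            algebraMap k[X] (RatFunc k) ((α ^ 3 - X * β ^ 3).comp (C (c ^ 6) * X ^ l ^ j)) := by
          rw [aeval_algebraMap_apply, ← comp_eq_aeval]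
          rfl
        rw [e2]
        exact h1.trans hdeg.le
      exact ((common Pool.Agent.TH958.T4.isCurveField_rat h6 hn hf hcr).2.2.2 R hR).2 hz

end Pool.Agent.Results.MP_48b749_nt.PureCubicPullbacks
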