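import Pool.Agent.R427.SC7

/-!
# Rank equals order of vanishing, of unbounded size, over function fields with any field of constants
# of characteristic at least five

The elliptic curves `y ^ 2 = x ^ 3 + (3 x + 4 (1 - h ^ d)) ^ 2`, `d` a divisor of `p ^ ν + 1`, over
function fields whose field of constants need not contain the `d`-th roots of unity. Rank and order of
vanishing are the number of irreducible factors of `X ^ d - 1` over the field of constants, minus one.
-/

set_option autoImplicit false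
set_option linter.all false
set_option maxHeartbeats 4000000

open Polynomial Pool.Agent.W343.BSD Pool.Agent.W309.RK

namespace Pool.Agent.Results.MP_48b749_nt.SmallConstantFields

/-- `x` has exactly one zero; the order of this zero and the degree of the place are prime to three. -/
def OneZero (k : Type) {K : Type} [Field k] [Field K] [Algebra k K] (x : K) : Prop :=
  ∃ v : FF.Place k K, 0 < v.ord x ∧ ¬ (3 : ℤ) ∣ v.ord x ∧ ¬ 3 ∣ S.deg v ∧
    ∀ w : FF.Place k K, 0 < w.ord x → w = v

/-- The number of monic irreducible factors of `X ^ d - 1` over `k`. -/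
noncomputable def numFactors (k : Type) [Field k] (d : ℕ) : ℕ :=
  Set.ncard {Φ : k[X] | Φ.Monic ∧ Irreducible Φ ∧ Φ ∣ X ^ d - 1}

/-- The conditions on the function `h`, for the field `k` with `q` elements: if `3` divides `q - 1`, then
`h` has exactly one zero, of degree prime to three; if `3` does not divide `q - 1`, all zeros of `h` have
odd degree; for all monic irreducible factors `Φ` of `X ^ d - 1` over `k` the function `Φ(h)` has
exactly one zero, of order prime to three and at a place of degree prime to three; exactly one of the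
poles of `h` has order prime to three, and its degree is prime to three, and odd if `3` does not divide
`q - 1`. -/
structure Conditions (k : Type) {K : Type} [Field k] [Field K] [Algebra k K] (d : ℕ) (h : K) :
    Prop where
  zero_one : 3 ∣ Nat.card k - 1 → ∃ v : FF.Place k K, ¬ 3 ∣ S.deg v ∧
    ∀ w : FF.Place k K, 0 < w.ord h → w = v
  zero_odd : ¬ 3 ∣ Nat.card k - 1 → ∀ w : FF.Place k K, 0 < w.ord h → Odd (S.deg w)
  factor : ∀ Φ : k[X], Φ.Monic → Irreducible Φ → Φ ∣ X ^ d - 1 → OneZero k (aeval h Φ)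
  pole : ∃ v : FF.Place k K, v.ord h < 0 ∧ ¬ (3 : ℤ) ∣ v.ord h ∧ ¬ 3 ∣ S.deg v ∧
    (¬ 3 ∣ Nat.card k - 1 → Odd (S.deg v)) ∧
    ∀ w : FF.Place k K, w.ord h < 0 → ¬ (3 : ℤ) ∣ w.ord h → w = v

/-- `3` does not divide the class number; if it does not divide `q - 1`, it does not divide the value at
`-1` of the numerator of the zeta function (the class number is the value at `1`). -/
def ClassCondition (k K : Type) [Field k] [Field K] [Algebra k K] : Prop :=
  ¬ 3 ∣ S.classNumber k K ∧ (¬ 3 ∣ Nat.card k - 1 →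
    ∀ P : ℤ[X], S.IsZetaNum k K P → ¬ (3 : ℤ) ∣ P.eval (-1))

/-- The first coefficient of `E_h`. -/
def coeffA {K : Type} [Field K] (d : ℕ) (h : K) : K := -(24 * h ^ d + 3)

/-- The second coefficient of `E_h`. -/
def coeffB {K : Type} [Field K] (d : ℕ) (h : K) : K := 16 * (h ^ d) ^ 2 + 40 * h ^ d - 2

/-- The curve `E_h : y ^ 2 = x ^ 3 + (3 x + 4 (1 - h ^ d)) ^ 2`, in short form
`y ^ 2 = x ^ 3 + a x + b` (with `x` replaced by `x - 3`). -/
def curve {K : Type} [Field K] (d : ℕ) (h : K) : WeierstrassCurve K :=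
  ⟨0, 0, 0, coeffA d h, coeffB d h⟩

open Classical in
/-- `E_h` is an elliptic curve whose `j`-invariant `6912 a ^ 3 / (4 a ^ 3 + 27 b ^ 2)` is not in `k`, with
a `K`-rational point of order three and `ρ` linearly independent points over `K`; its `L`-function
vanishes at `T = 1 / |k|` to order at most `ρ`: if it is `(1 - |k| T) ^ M G(T)` with `G` in `ℤ[T]`,
then `M ≤ ρ`. If it is a polynomial with order of vanishing `r` and the rank is at most `r`, then
the rank and `r` are equal to `ρ`. -/
def RankAndOrder (k : Type) {K : Type} [Field k] [Finite k] [Field K] [Algebra k K] (ρ d : ℕ)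
    (h : K) : Prop :=
  4 * coeffA d h ^ 3 + 27 * coeffB d h ^ 2 ≠ 0 ∧
  (∀ c : k, 6912 * coeffA d h ^ 3 / (4 * coeffA d h ^ 3 + 27 * coeffB d h ^ 2) ≠
    algebraMap k K c) ∧
  (∃ P : (curve d h).toAffine.Point, addOrderOf P = 3) ∧
  (∃ P : Fin ρ → (curve d h).toAffine.Point, LinearIndependent ℤ P) ∧
  (∀ M : ℕ, S.VanishesTo k (coeffA d h) (coeffB d h) M → M ≤ ρ) ∧
  ∀ r : ℕ, Pool.Agent.W313.Gr.HasOrder k (coeffA d h) (coeffB d h) r →
    Module.rank ℤ (curve d h).toAffine.Point ≤ r →
      r = ρ ∧ Module.rank ℤ (curve d h).toAffine.Point = ρ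

/-- (1) Let `p ≥ 5` be a prime, `p ^ ν` congruent to `1` modulo `3`, `d` a divisor of `p ^ ν + 1`, `k` a
field with `q` elements of characteristic `p` such that `p ^ ν + 1` divides `q ^ n - 1` for some `n`
prime to `3`, and `K` the function field of a curve over `k` with constant field `k` which satisfies the
condition on the zeta function. Let `h` in `K` satisfy the conditions. Then the elliptic curve
`y ^ 2 = x ^ 3 + (3 x + 4 (1 - h ^ d)) ^ 2` has a point of order three, at least `ρ` independent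
points over `K`, and its `L`-function vanishes at `T = 1 / q` to order at most `ρ`, where `ρ + 1` is the
number of irreducible factors of `X ^ d - 1` over `k`; if the rank is at most the order, both are `ρ`.

(2) For all finite fields `k` of characteristic `p ≥ 5` and all `N` there are `ν` and `n` as in (1) with
`ρ ≥ N` for `d = p ^ ν + 1` such that `K = k(t)` and `h = t` satisfy the conditions, and the functions
`h = c t ^ (r ^ j)`, for every prime `r ≥ 5` which divides `q - 1`, for some `c` in `k` and all `j`. -/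
theorem result :
    (∀ (p ν n d : ℕ), p.Prime → 5 ≤ p → 1 ≤ ν → p ^ ν % 3 = 1 → d ∣ p ^ ν + 1 → ¬ 3 ∣ n →
      ∀ (k K : Type) [Field k] [Finite k] [CharP k p] [Field K] [Algebra k K],
      p ^ ν + 1 ∣ Nat.card k ^ n - 1 → IsCurveField k K → ClassCondition k K →
      ∀ h : K, Conditions k d h → RankAndOrder k (numFactors k d - 1) d h) ∧
    ∀ (p : ℕ), p.Prime → 5 ≤ p → ∀ (k : Type) [Field k] [Finite k] [CharP k p],
      IsCurveField k (RatFunc k) ∧ ClassCondition k (RatFunc k) ∧
      ∀ N : ℕ, ∃ ν n : ℕ, 1 ≤ ν ∧ p ^ ν % 3 = 1 ∧ ¬ 3 ∣ n ∧ p ^ ν + 1 ∣ Nat.card k ^ n - 1 ∧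
        N ≤ numFactors k (p ^ ν + 1) - 1 ∧
        Conditions k (p ^ ν + 1) (algebraMap k[X] (RatFunc k) X) ∧
        ∀ r : ℕ, r.Prime → 5 ≤ r → r ∣ Nat.card k - 1 → ∃ c : k, ∀ j : ℕ,
          Conditions k (p ^ ν + 1) (algebraMap k[X] (RatFunc k) (C c * X ^ r ^ j)) := by
  refine ⟨?_, ?_⟩
  · intro p ν n d hp hp5 hν hQ hd hn k K _ _ _ _ _ hN hK hcl h hA
    haveI : FF.IsFF k K := ⟨hK.essFiniteType, hK.trdeg_eq_one⟩
    obtain ⟨⟨h1, h2⟩, h3, h4, h5, h6⟩ := Pool.Agent.R427.SC.main hp hp5 hQ hν hd hn hN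
      hK.algClosed hcl (h := h) ⟨hA.zero_one, hA.zero_odd, hA.factor, hA.pole⟩
    exact ⟨h1, fun c hc => h2 c ((div_eq_iff h1).1 hc), h3, h4, h5, h6⟩
  · intro p hp hp5 k _ _ _
    refine ⟨Pool.Agent.TH958.T4.isCurveField_rat, Pool.Agent.R427.SC.primeToThree_rat, fun N => ?_⟩
    obtain ⟨ν, n, h1, h2, h3, h4, h5, h6, h7⟩ := Pool.Agent.R427.SC.exist hp hp5 k N
    refine ⟨ν, n, h1, h2, h3, h4, h5, ⟨h6.zero_one, h6.zero_odd, h6.factor, h6.pole⟩, ?_⟩
    intro r hr hr5 hrq
    obtain ⟨c, hc⟩ := h7 r hr hr5 hrq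
    exact ⟨c, fun j => ⟨(hc j).zero_one, (hc j).zero_odd, (hc j).factor, (hc j).pole⟩⟩

end Pool.Agent.Results.MP_48b749_nt.SmallConstantFields
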